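import Mathlib
import Pool.Agent.W774.TL.Stm

set_option autoImplicit false

/-! Project TL, part J3 (helper103). -/

namespace Pool.Agent.W103.TLJ3

open Set Filter Topology Pool.Agent.W774.TL

lemma abs_S_le (u : ℝ) : |S u| ≤ |u| := by
  unfold S
  have hp : (0 : ℝ) < 2 * Real.pi := by positivity
  rw [abs_div, abs_of_pos hp, div_le_iff₀ hp]
  calc |Real.sin (2 * Real.pi * u)| ≤ |2 * Real.pi * u| := Real.abs_sin_le_abs
    _ = |u| * (2 * Real.pi) := by rw [abs_mul, abs_of_pos hp, mul_comm]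

lemma pi_sq_le : Real.pi ^ 2 ≤ 10 := by
  have h1 := Real.pi_lt_d2
  have h2 := Real.pi_pos
  nlinarith

lemma S_ge (u : ℝ) (hu : 0 < u) : u - 7 * u ^ 3 ≤ S u := by
  unfold S
  have hp : (0 : ℝ) < 2 * Real.pi := by positivity
  rw [le_div_iff₀ hp]
  have h1 := Real.sin_gt_sub_cube (x := 2 * Real.pi * u) (by positivity)
  refine le_trans ?_ h1.le
  have h2 := pi_sq_le
  have h3 : (2 * Real.pi * u) ^ 3 / 6 = (2 / 3 * Real.pi ^ 2) * (u ^ 3 * (2 * Real.pi)) := by ring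
  rw [h3]
  have h4 : 0 ≤ u ^ 3 * (2 * Real.pi) := by positivity
  nlinarith

lemma S_ge2 (u : ℝ) (h0 : 0 ≤ u) (h1 : u ≤ 1 / 2 + 82 / 100000) : -(82 / 100000) ≤ S u := by
  have hp : (0 : ℝ) < 2 * Real.pi := by positivity
  unfold S
  rw [le_div_iff₀ hp]
  by_cases h : u ≤ 1 / 2
  · have h2 : 0 ≤ Real.sin (2 * Real.pi * u) := by
      apply Real.sin_nonneg_of_nonneg_of_le_pi
      · positivity
      · have := Real.pi_pos
        nlinarith
    have := Real.pi_pos
    nlinarith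
  · push Not at h
    have h2 : Real.sin (2 * Real.pi * u) = - Real.sin (2 * Real.pi * u - Real.pi) := by
      rw [Real.sin_sub_pi, neg_neg]
    have h3 : Real.sin (2 * Real.pi * u - Real.pi) ≤ 2 * Real.pi * u - Real.pi := by
      apply Real.sin_le
      have := Real.pi_pos
      nlinarith
    rw [h2]
    have := Real.pi_pos
    nlinarith

lemma Co_bd (u : ℝ) : |1 - Co u| ≤ 20 * u ^ 2 := by
  unfold Co
  have h1 := Real.one_sub_sq_div_two_le_cos (x := 2 * Real.pi * u)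
  have h2 := Real.cos_le_one (2 * Real.pi * u)
  rw [abs_of_nonneg (by linarith)]
  have h3 : (2 * Real.pi * u) ^ 2 / 2 = 2 * Real.pi ^ 2 * u ^ 2 := by ring
  rw [h3] at h1
  have h4 := pi_sq_le
  have h5 : 0 ≤ u ^ 2 := sq_nonneg u
  nlinarith

lemma sg_nonneg (y : ℝ) : 0 ≤ sg y := by
  unfold sg; positivity

lemma sg_le_one (y : ℝ) : sg y ≤ 1 := by
  unfold sg
  have := Real.exp_pos y
  rw [div_le_one (by positivity)]
  linarith

lemma one_sub_sg (y : ℝ) : 1 - sg y ≤ Real.exp (-y) := by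
  unfold sg
  have := Real.exp_pos y
  have h1 : 1 - Real.exp y / (1 + Real.exp y) = 1 / (1 + Real.exp y) := by
    field_simp
    ring
  rw [h1, Real.exp_neg, one_div]
  apply inv_anti₀ this
  linarith

/-- numerical consequences of A large -/
lemma big (A G : ℝ) (hG : 0 ≤ G) (hA : 10 ^ 7 * (1 + G) ≤ A) :
    1 / A ^ 2 + Real.exp (-(A / 1000)) ≤ 1 / 100000 ∧
    1 + G + 4 * A * Real.exp (-(A / 1000)) ≤ A / 100000 := by
  have hA7 : (10 : ℝ) ^ 7 ≤ A := by nlinarith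
  have hA0 : 0 < A := by linarith [show (0 : ℝ) < 10 ^ 7 by norm_num]
  have h1 := Real.quadratic_le_exp_of_nonneg (x := A / 1000) (by positivity)
  have h2 : Real.exp (-(A / 1000)) ≤ 2000000 / A ^ 2 := by
    rw [Real.exp_neg, inv_eq_one_div, div_le_div_iff₀ (Real.exp_pos _) (by positivity)]
    have : (A / 1000) ^ 2 / 2 = A ^ 2 / 2000000 := by ring
    nlinarith
  have hAA : (10 : ℝ) ^ 14 ≤ A ^ 2 := by nlinarith
  constructor
  · have h3 : 1 / A ^ 2 + Real.exp (-(A / 1000)) ≤ 2000001 / A ^ 2 := by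
      have : (2000001 : ℝ) / A ^ 2 = 1 / A ^ 2 + 2000000 / A ^ 2 := by ring
      rw [this]; linarith
    refine h3.trans ?_
    rw [div_le_div_iff₀ (by positivity) (by norm_num)]
    nlinarith
  · have h3 : 4 * A * Real.exp (-(A / 1000)) ≤ 8000000 / A := by
      calc 4 * A * Real.exp (-(A / 1000)) ≤ 4 * A * (2000000 / A ^ 2) := by gcongr
        _ = 8000000 / A := by field_simp; ring
    have h4 : 8000000 / A ≤ A / 10 ^ 7 := by
      rw [div_le_div_iff₀ hA0 (by norm_num)]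
      nlinarith
    have h5 : 1 + G ≤ A / 10 ^ 7 := by
      rw [le_div_iff₀ (by norm_num)]; linarith
    have h6 : A / 10 ^ 7 + A / 10 ^ 7 ≤ A / 100000 := by
      have : A / 100000 = A / 10 ^ 7 * 100 := by ring
      rw [this]
      have : 0 < A / 10 ^ 7 := by positivity
      linarith
    linarith

/-- in the smaller region the point is in R3 and y is large -/
lemma region (A τ a p : ℝ) (hA0 : 0 < A) (h1 : 1 / 500 ≤ τ) (h2 : τ ≤ 1 / 2)
    (hb : |a - τ| ≤ 82 / 100000) (hp : |p - A * (3 / 2 + 3 * τ)| ≤ 266 / 100000 * A) :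
    R3 A τ a p ∧ A / 1000 ≤ yy A τ a p := by
  have hb' := abs_le.1 hb
  have hp' := abs_le.1 hp
  refine ⟨⟨by linarith, h2, hb.trans (by norm_num), hp.trans (by linarith)⟩, ?_⟩
  unfold yy
  have hS1 : S (a - τ) ≤ 82 / 100000 := (le_abs_self _).trans ((abs_S_le _).trans hb)
  have key : 1 / 1000 ≤ 3 * τ - 266 / 100000 - 3 * S (a - τ) + S a := by
    by_cases hτ : τ ≤ 1 / 50
    · have h3 := S_ge a (by linarith)
      have ha1 : a ≤ 21 / 1000 := by linarith
      have ha0 : 0 < a := by linarith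
      have h4 : a ^ 3 ≤ (21 / 1000) ^ 3 := pow_le_pow_left₀ ha0.le ha1 3
      norm_num at h4
      linarith
    · push Not at hτ
      have h3 := S_ge2 a (by linarith) (by linarith)
      linarith
  have h5 : A * (1 / 1000) ≤ A * (3 * τ - 266 / 100000 - 3 * S (a - τ) + S a) :=
    mul_le_mul_of_nonneg_left key hA0.le
  have h6 : A * (3 * τ - 266 / 100000 - 3 * S (a - τ) + S a) =
      A * (3 / 2 + 3 * τ) - 266 / 100000 * A - A * (3 / 2 + 3 * S (a - τ) - S a) := by ring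
  rw [h6] at h5
  linarith

/-- the derivative estimates in the smaller region -/
lemma deriv_bd (A G τ a p a' p' : ℝ) (hG : 0 ≤ G) (hA : 10 ^ 7 * (1 + G) ≤ A)
    (h1 : 1 / 500 ≤ τ) (h2 : τ ≤ 1 / 2)
    (hb : |a - τ| ≤ 82 / 100000) (hp : |p - A * (3 / 2 + 3 * τ)| ≤ 266 / 100000 * A)
    (hs : |a' - sg (yy A τ a p)| ≤ 1 / A ^ 2 ∧
      |p' - A * ((1 - sg (yy A τ a p)) * Co a + 3 * sg (yy A τ a p) * Co (a - τ))| ≤ 1 + G) :
    |a' - 1| ≤ 1 / 100000 ∧ |p' - 3 * A| ≤ 505 / 10000000 * A := by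
  have hA7 : (10 : ℝ) ^ 7 ≤ A := by nlinarith
  have hA0 : 0 < A := by linarith [show (0 : ℝ) < 10 ^ 7 by norm_num]
  obtain ⟨hbig1, hbig2⟩ := big A G hG hA
  obtain ⟨_, hy⟩ := region A τ a p hA0 h1 h2 hb hp
  obtain ⟨hs1, hs2⟩ := hs
  set y := yy A τ a p with hy'
  set s := sg y with hs'
  set e := Real.exp (-(A / 1000)) with he
  have he0 : 0 < e := Real.exp_pos _
  have h3 : 1 - s ≤ e := (one_sub_sg y).trans (Real.exp_le_exp.2 (by linarith))
  have h4 : 0 ≤ s := sg_nonneg y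
  have h5 : s ≤ 1 := sg_le_one y
  have hs1' := abs_le.1 hs1
  constructor
  · rw [abs_le]; constructor <;> linarith
  · have h6 := Co_bd (a - τ)
    have h7 : (a - τ) ^ 2 ≤ (82 / 100000) ^ 2 := by
      rw [← sq_abs]
      exact pow_le_pow_left₀ (abs_nonneg _) hb 2
    have h8 : |1 - Co (a - τ)| ≤ 20 * (82 / 100000) ^ 2 := by linarith
    have h9 : |Co a| ≤ 1 := Real.abs_cos_le_one _
    have h10 : |Co (a - τ)| ≤ 1 := Real.abs_cos_le_one _
    set u := Co a with hu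
    set w := Co (a - τ) with hw
    have h8' := abs_le.1 h8
    have h9' := abs_le.1 h9
    have h10' := abs_le.1 h10
    have h11 : |(1 - s) * u + 3 * s * w - 3| ≤ 4 * e + 3 * (20 * (82 / 100000) ^ 2) := by
      have e1 : (1 - s) * u + 3 * s * w - 3 = (1 - s) * (u - 3 * w) - 3 * (1 - w) := by ring
      rw [e1]
      have e2 : |(1 - s) * (u - 3 * w)| ≤ 4 * e := by
        rw [abs_mul, abs_of_nonneg (by linarith : 0 ≤ 1 - s)]
        have e3 : |u - 3 * w| ≤ 4 := by rw [abs_le]; constructor <;> linarith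
        calc (1 - s) * |u - 3 * w| ≤ e * 4 := by
              apply mul_le_mul h3 e3 (abs_nonneg _) he0.le
          _ = 4 * e := by ring
      have e4 : |3 * (1 - w)| ≤ 3 * (20 * (82 / 100000) ^ 2) := by
        rw [abs_mul, abs_of_pos (by norm_num : (0 : ℝ) < 3)]
        linarith
      exact (abs_sub _ _).trans (add_le_add e2 e4)
    have h12 : |A * ((1 - s) * u + 3 * s * w) - 3 * A| ≤
        A * (4 * e + 3 * (20 * (82 / 100000) ^ 2)) := by
      have e5 : A * ((1 - s) * u + 3 * s * w) - 3 * A = A * ((1 - s) * u + 3 * s * w - 3) := by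
        ring
      rw [e5, abs_mul, abs_of_pos hA0]
      exact mul_le_mul_of_nonneg_left h11 hA0.le
    have h13 := abs_add_le (p' - A * ((1 - s) * u + 3 * s * w)) (A * ((1 - s) * u + 3 * s * w) - 3 * A)
    have h14 : p' - A * ((1 - s) * u + 3 * s * w) + (A * ((1 - s) * u + 3 * s * w) - 3 * A) =
        p' - 3 * A := by ring
    rw [h14] at h13
    refine h13.trans ?_
    have h15 : A * (4 * e + 3 * (20 * (82 / 100000) ^ 2)) =
        4 * A * e + A * (3 * (20 * (82 / 100000) ^ 2)) := by ring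
    rw [h15] at h12
    norm_num at h12 ⊢
    nlinarith

theorem j3_thm : P_J3 := by
  intro G hG
  refine ⟨10 ^ 7 * (1 + G), fun A hA a p a' p' hsys hb0 hp0 => ?_⟩
  have hA7 : (10 : ℝ) ^ 7 ≤ A := by nlinarith
  have hA0 : 0 < A := by linarith [show (0 : ℝ) < 10 ^ 7 by norm_num]
  set F : ℝ → ℝ := fun τ => ((a τ - τ) - (a (1 / 500) - 1 / 500)) / (1 / 50000) with hF
  set H : ℝ → ℝ := fun τ => (p τ - p (1 / 500) - 3 * A * (τ - 1 / 500)) / (3 * A / 50000) with hH
  set Φ : ℝ → ℝ × ℝ := fun τ => (F τ, H τ) with hΦ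
  set Φ' : ℝ → ℝ × ℝ := fun τ => ((a' τ - 1) / (1 / 50000), (p' τ - 3 * A) / (3 * A / 50000))
    with hΦ'
  have hder : ∀ τ ∈ Icc (1 / 500 : ℝ) (1 / 2), HasDerivAt Φ (Φ' τ) τ := by
    intro τ hτ
    obtain ⟨h1, h2, _⟩ := hsys τ hτ
    apply HasDerivAt.prodMk
    · exact (((h1.sub (hasDerivAt_id τ)).sub_const _).div_const _)
    · have h3 : HasDerivAt (fun τ => 3 * A * (τ - 1 / 500)) (3 * A) τ := by
        have := ((hasDerivAt_id τ).sub_const (1 / 500)).const_mul (3 * A)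
        simpa using this
      exact ((h2.sub_const _).sub h3).div_const _
  -- consequences of the norm bound
  have hcons : ∀ τ ∈ Icc (1 / 500 : ℝ) (1 / 2), ‖Φ τ‖ ≤ 1 →
      |a τ - τ| ≤ 82 / 100000 ∧ |p τ - A * (3 / 2 + 3 * τ)| ≤ 266 / 100000 * A := by
    intro τ hτ hn
    have hn1 : |F τ| ≤ 1 := (norm_fst_le (Φ τ)).trans hn
    have hn2 : |H τ| ≤ 1 := (norm_snd_le (Φ τ)).trans hn
    rw [hF] at hn1
    rw [hH] at hn2
    simp only at hn1 hn2
    rw [abs_div, div_le_one (by positivity), abs_of_pos (by norm_num : (0 : ℝ) < 1 / 50000)] at hn1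
    rw [abs_div, div_le_one (by positivity), abs_of_pos (by positivity : (0 : ℝ) < 3 * A / 50000)]
      at hn2
    have g1 := abs_le.1 hn1
    have g2 := abs_le.1 hn2
    have g3 := abs_le.1 hb0
    have g4 := abs_le.1 hp0
    constructor
    · rw [abs_le]; constructor <;> linarith
    · rw [abs_le]; constructor <;> nlinarith
  have hmain : ∀ ⦃τ⦄, τ ∈ Icc (1 / 500 : ℝ) (1 / 2) → ‖Φ τ‖ ≤ τ - 1 / 500 := by
    refine image_norm_le_of_norm_deriv_right_lt_deriv_boundary (f := Φ) (f' := Φ')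
      (B := fun τ => τ - 1 / 500) (B' := fun _ => 1) ?_ ?_ ?_ ?_ ?_
    · exact fun τ hτ => (hder τ hτ).continuousAt.continuousWithinAt
    · exact fun τ hτ => (hder τ ⟨hτ.1, hτ.2.le⟩).hasDerivWithinAt
    · have h1 : Φ (1 / 500) = 0 := by
        rw [hΦ, hF, hH]
        simp
      rw [h1]; simp
    · intro τ
      exact (hasDerivAt_id τ).sub_const _
    · intro τ hτ hn
      have hτ' : τ ∈ Icc (1 / 500 : ℝ) (1 / 2) := ⟨hτ.1, hτ.2.le⟩
      have hn1 : ‖Φ τ‖ ≤ 1 := by rw [hn]; linarith [hτ.2]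
      obtain ⟨hb, hp⟩ := hcons τ hτ' hn1
      obtain ⟨hR, _⟩ := region A τ (a τ) (p τ) hA0 hτ'.1 hτ'.2 hb hp
      obtain ⟨_, _, hest⟩ := hsys τ hτ'
      obtain ⟨d1, d2⟩ := deriv_bd A G τ (a τ) (p τ) (a' τ) (p' τ) hG hA hτ'.1 hτ'.2 hb hp
        (hest (Or.inr hR))
      rw [Prod.norm_def, max_lt_iff]
      constructor
      · show |(a' τ - 1) / (1 / 50000)| < 1
        rw [abs_div, abs_of_pos (by norm_num : (0 : ℝ) < 1 / 50000), div_lt_one (by norm_num)]
        exact d1.trans_lt (by norm_num)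
      · show |(p' τ - 3 * A) / (3 * A / 50000)| < 1
        rw [abs_div, abs_of_pos (by positivity : (0 : ℝ) < 3 * A / 50000),
          div_lt_one (by positivity)]
        refine d2.trans_lt ?_
        linarith
  have hall : ∀ τ ∈ Icc (1 / 500 : ℝ) (1 / 2), ‖Φ τ‖ ≤ 1 := fun τ hτ =>
    (hmain hτ).trans (by linarith [hτ.2])
  refine ⟨fun τ hτ => ?_, ?_, ?_⟩
  · obtain ⟨hb, hp⟩ := hcons τ hτ (hall τ hτ)
    exact (region A τ (a τ) (p τ) hA0 hτ.1 hτ.2 hb hp).1
  · have h1 : |F (1 / 2)| ≤ 1 :=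
      (norm_fst_le (Φ (1 / 2))).trans (hall (1 / 2) ⟨by norm_num, le_rfl⟩)
    rw [hF] at h1
    simp only at h1
    rw [abs_div, div_le_one (by positivity), abs_of_pos (by norm_num : (0 : ℝ) < 1 / 50000)] at h1
    exact h1
  · have h1 : |H (1 / 2)| ≤ 1 :=
      (norm_snd_le (Φ (1 / 2))).trans (hall (1 / 2) ⟨by norm_num, le_rfl⟩)
    rw [hH] at h1
    simp only at h1
    rw [abs_div, div_le_one (by positivity), abs_of_pos (by positivity : (0 : ℝ) < 3 * A / 50000)]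
      at h1
    exact h1

end Pool.Agent.W103.TLJ3
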